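import Pool.Agent.helper90.MinRamsey.Last

set_option autoImplicit false

namespace Pool.Agent.MinRamsey

open SimpleGraph Finset

/-! ### The sizes of the stars -/

/-- tail totals: `tt n k i` is the number of vertices of the stars `i, i+1, ..., k-1` -/
def tt (n k : ℕ) : ℕ → ℕ
  | 0 => n
  | i + 1 => if i + 1 < k then tt n k i / 2 + (k - i) - 1 else 0

/-- star sizes -/
def ss (n k j : ℕ) : ℕ := tt n k j - tt n k (j + 1) - 1

lemma tt_zero (n k : ℕ) : tt n k 0 = n := rfl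

lemma tt_succ (n k i : ℕ) (h : i + 1 < k) : tt n k (i + 1) = tt n k i / 2 + (k - i) - 1 := by
  rw [tt, if_pos h]

lemma tt_top (n k : ℕ) (hk : 1 ≤ k) : tt n k k = 0 := by
  obtain ⟨k', rfl⟩ : ∃ k', k = k' + 1 := ⟨k - 1, by omega⟩
  rw [tt, if_neg (lt_irrefl _)]

lemma tt_lower (n k : ℕ) : ∀ i < k, n ≤ 2 ^ i * tt n k i := by
  intro i
  induction i with
  | zero => intro _; simp [tt_zero]
  | succ i ih =>
    intro hi
    have h := ih (by omega)
    rw [tt_succ n k i hi, pow_succ, mul_assoc]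
    refine h.trans (Nat.mul_le_mul_left _ ?_)
    omega

lemma tt_upper (n k : ℕ) : ∀ i < k, 2 ^ i * tt n k i ≤ n + 2 ^ i * (2 * (k - i) + 2) := by
  intro i
  induction i with
  | zero => intro _; simp [tt_zero]
  | succ i ih =>
    intro hi
    have h := ih (by omega)
    rw [tt_succ n k i hi, pow_succ]
    have h1 : 2 * (tt n k i / 2 + (k - i) - 1) ≤ tt n k i + (2 * (k - i) - 2) := by omega
    have h2 : 2 ^ i * (2 * (tt n k i / 2 + (k - i) - 1)) ≤
        2 ^ i * (tt n k i + (2 * (k - i) - 2)) := Nat.mul_le_mul_left _ h1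
    have h3 : 2 * (k - i) + 2 + (2 * (k - i) - 2) = 2 * (2 * (k - (i + 1)) + 2) := by omega
    calc 2 ^ i * 2 * (tt n k i / 2 + (k - i) - 1)
        = 2 ^ i * (2 * (tt n k i / 2 + (k - i) - 1)) := by ring
      _ ≤ 2 ^ i * (tt n k i + (2 * (k - i) - 2)) := h2
      _ = 2 ^ i * tt n k i + 2 ^ i * (2 * (k - i) - 2) := by ring
      _ ≤ n + 2 ^ i * (2 * (k - i) + 2) + 2 ^ i * (2 * (k - i) - 2) := Nat.add_le_add_right h _
      _ = n + 2 ^ i * (2 * (k - i) + 2 + (2 * (k - i) - 2)) := by ring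
      _ = n + 2 ^ i * 2 * (2 * (k - (i + 1)) + 2) := by rw [h3]; ring

lemma two_mul_le_pow : ∀ r : ℕ, 2 * r + 2 ≤ 2 ^ (r + 1) := by
  intro r
  induction r with
  | zero => norm_num
  | succ r ih => rw [pow_succ]; omega

lemma tt_big (n k : ℕ) (hn : 2 ^ (k + 1) ≤ n) (i : ℕ) (hi : i < k) :
    2 * (k - i) + 2 ≤ tt n k i := by
  have h1 := tt_lower n k i hi
  have h2 : 2 ^ (k + 1) = 2 ^ i * 2 ^ (k - i + 1) := by
    rw [← pow_add]; congr 1; omega
  rw [h2] at hn
  have h3 : 2 ^ (k - i + 1) ≤ tt n k i :=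
    Nat.le_of_mul_le_mul_left (hn.trans h1) (by positivity)
  exact (two_mul_le_pow _).trans h3

lemma tt_dec (n k : ℕ) (hn : 2 ^ (k + 1) ≤ n) (i : ℕ) (hi : i < k) :
    tt n k (i + 1) + 2 ≤ tt n k i := by
  have h := tt_big n k hn i hi
  by_cases h1 : i + 1 < k
  · rw [tt_succ n k i h1]; omega
  · have : k = i + 1 := by omega
    subst this
    rw [tt_top _ _ (by omega)]
    omega

lemma tt_tel (n k : ℕ) (hn : 2 ^ (k + 1) ≤ n) : ∀ i ≤ k,
    i + ∑ j ∈ range i, ss n k j + tt n k i = n := by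
  intro i
  induction i with
  | zero => intro _; simp [tt_zero]
  | succ i ih =>
    intro hi
    have h1 := ih (by omega)
    have h2 := tt_dec n k hn i (by omega)
    rw [sum_range_succ, ss]
    omega

lemma ss_Ico (n k : ℕ) (hk : 1 ≤ k) (hn : 2 ^ (k + 1) ≤ n) (a : ℕ) (ha : a ≤ k) :
    ∑ j ∈ Ico a k, ss n k j + (k - a) = tt n k a := by
  have h1 := tt_tel n k hn a ha
  have h2 := tt_tel n k hn k le_rfl
  rw [tt_top n k hk] at h2
  have h3 := Finset.sum_range_add_sum_Ico (fun j => ss n k j) ha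
  omega

lemma four_sq_le_pow : ∀ k : ℕ, 8 ≤ k → 4 * k ^ 2 ≤ 2 ^ (k + 1) := by
  intro k hk
  induction k, hk using Nat.le_induction with
  | base => norm_num
  | succ k hk ih =>
    rw [pow_succ 2 (k + 1)]
    nlinarith

lemma eight_mul_le_pow : ∀ j : ℕ, 4 ≤ j → 8 * j ≤ 2 ^ (j + 1) := by
  intro j hj
  induction j, hj using Nat.le_induction with
  | base => norm_num
  | succ k hk ih => rw [pow_succ]; omega

lemma four_mul_le_pow : ∀ j : ℕ, 3 ≤ j → 4 * (j + 1) ≤ 2 ^ (j + 1) := by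
  intro j hj
  induction j, hj using Nat.le_induction with
  | base => norm_num
  | succ k hk ih => rw [pow_succ]; omega

/-- **The new upper bound**, core form. -/
theorem minRamsey_le_core (n k q : ℕ) (hn : 2 ^ (k + 1) ≤ n) (hq : n ≤ 2 ^ (k - 1) * q)
    (hqk : 16 * (q + 3) ≤ k) : minRamsey n ≤ n + (k - 1) := by
  have hk : 48 ≤ k := by omega
  have hsq := four_sq_le_pow k (by omega)
  have hk4 : 4 * k ^ 2 ≤ n := hsq.trans hn
  have hkn : 192 * k ≤ n := by nlinarith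
  have htop : tt n k (k - 1 + 1) = 0 := by
    rw [Nat.sub_add_cancel (by omega)]; exact tt_top n k (by omega)
  -- the last star
  have hσ : ss n k (k - 1) + 1 = tt n k (k - 1) := by
    have := tt_dec n k hn (k - 1) (by omega)
    rw [ss, htop]
    omega
  have hpk : 2 ^ (k + 1) = 2 ^ (k - 1) * 4 := by
    have : k + 1 = (k - 1) + 2 := by omega
    rw [this, pow_add]; norm_num
  have hlow : 4 ≤ tt n k (k - 1) := by
    have h1 := tt_lower n k (k - 1) (by omega)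
    rw [hpk] at hn
    exact Nat.le_of_mul_le_mul_left (hn.trans h1) (by positivity)
  have hupp : tt n k (k - 1) ≤ q + 4 := by
    have h1 := tt_upper n k (k - 1) (by omega)
    have e : 2 * (k - (k - 1)) + 2 = 4 := by omega
    rw [e] at h1
    have h2 : 2 ^ (k - 1) * tt n k (k - 1) ≤ 2 ^ (k - 1) * (q + 4) := by
      calc _ ≤ n + 2 ^ (k - 1) * 4 := h1
        _ ≤ 2 ^ (k - 1) * q + 2 ^ (k - 1) * 4 := Nat.add_le_add_right hq _
        _ = 2 ^ (k - 1) * (q + 4) := by ring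
    exact Nat.le_of_mul_le_mul_left h2 (by positivity)
  obtain ⟨σ, hσd⟩ : ∃ σ, ss n k (k - 1) = σ := ⟨_, rfl⟩
  have hσk : 16 * σ ≤ k := by omega
  have hσ3 : 3 ≤ σ := by omega
  apply minRamsey_le_of_sizes' n k (ss n k) (by omega)
  · intro j hj
    have := tt_dec n k hn j hj
    rw [ss]; omega
  · have h2 := tt_tel n k hn k le_rfl
    rw [tt_top n k (by omega)] at h2
    omega
  · intro i hi
    have h1 := tt_tel n k hn i (by omega)
    have h2 := tt_dec n k hn i (by omega)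
    have h3 := tt_succ n k i (by omega)
    have h4 : ss n k i = tt n k i - tt n k (i + 1) - 1 := rfl
    omega
  · rw [hσd]; exact hσk
  · rw [hσd]
    have h1 := ss_Ico n k (by omega) hn (σ + 1) (by omega)
    have h2 := tt_upper n k (σ + 1) (by omega)
    have h3 := four_mul_le_pow σ hσ3
    obtain ⟨x, hx⟩ : ∃ x, ∑ j ∈ Ico (σ + 1) k, ss n k j + k = x := ⟨_, rfl⟩
    rw [hx]
    have h4 : x ≤ tt n k (σ + 1) + (σ + 1) := by omega
    have h5 : 2 ^ (σ + 1) * x ≤ n + 2 ^ (σ + 1) * (3 * k) := by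
      calc 2 ^ (σ + 1) * x ≤ 2 ^ (σ + 1) * (tt n k (σ + 1) + (σ + 1)) := Nat.mul_le_mul_left _ h4
        _ = 2 ^ (σ + 1) * tt n k (σ + 1) + 2 ^ (σ + 1) * (σ + 1) := by ring
        _ ≤ n + 2 ^ (σ + 1) * (2 * (k - (σ + 1)) + 2) + 2 ^ (σ + 1) * (σ + 1) :=
            Nat.add_le_add_right h2 _
        _ = n + 2 ^ (σ + 1) * (2 * (k - (σ + 1)) + 2 + (σ + 1)) := by ring
        _ ≤ n + 2 ^ (σ + 1) * (3 * k) := Nat.add_le_add_left (Nat.mul_le_mul_left _ (by omega)) _
    obtain ⟨P, hP⟩ : ∃ P, 2 ^ (σ + 1) = P := ⟨_, rfl⟩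
    rw [hP] at h3 h5
    have hPpos : 0 < P := by omega
    -- `(σ+1) k ≤ k^2`
    have h6 : (σ + 1) * k ≤ k ^ 2 := by
      rw [pow_two]; exact Nat.mul_le_mul_right _ (by omega)
    have h7 : P * ((σ + 1) * x) ≤ P * n := by
      calc P * ((σ + 1) * x) = (σ + 1) * (P * x) := by ring
        _ ≤ (σ + 1) * (n + P * (3 * k)) := Nat.mul_le_mul_left _ h5
        _ = (σ + 1) * n + P * (3 * ((σ + 1) * k)) := by ring
        _ ≤ (σ + 1) * n + P * (3 * k ^ 2) := by gcongr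
        _ ≤ P * n := by nlinarith
    exact Nat.le_of_mul_le_mul_left h7 hPpos
  · have h1 := ss_Ico n k (by omega) hn 1 (by omega)
    have h2 := tt_succ n k 0 (by omega)
    rw [tt_zero] at h2
    simp only [Nat.zero_add, Nat.sub_zero] at h2
    omega
  · intro m hm1 hm2
    rw [hσd] at hm2
    have h1 := tt_lower n k m (by omega)
    have h2 := tt_succ n k m (by omega)
    have h3 : ss n k m = tt n k m - tt n k (m + 1) - 1 := rfl
    have h4 : tt n k m ≤ 2 * ss n k m + 2 * k := by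
      have := tt_dec n k hn m (by omega)
      omega
    obtain ⟨j, hj⟩ : ∃ j, k = m + j := ⟨k - m, by omega⟩
    have h5 : 2 ^ m * (4 * k) ≤ n := by
      calc 2 ^ m * (4 * k) ≤ 2 ^ m * (8 * j) := Nat.mul_le_mul_left _ (by omega)
        _ ≤ 2 ^ m * 2 ^ (j + 1) := Nat.mul_le_mul_left _ (eight_mul_le_pow j (by omega))
        _ = 2 ^ (k + 1) := by rw [← pow_add]; congr 1; omega
        _ ≤ n := hn
    have e8 : (8 : ℕ) ^ m = 4 ^ m * 2 ^ m := by rw [← mul_pow]; norm_num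
    have h6 : 4 ^ m * n ≤ 8 ^ m * (2 * ss n k m) + 4 ^ m * (2 ^ m * (2 * k)) := by
      calc 4 ^ m * n ≤ 4 ^ m * (2 ^ m * tt n k m) := Nat.mul_le_mul_left _ h1
        _ ≤ 4 ^ m * (2 ^ m * (2 * ss n k m + 2 * k)) := by gcongr
        _ = 8 ^ m * (2 * ss n k m) + 4 ^ m * (2 ^ m * (2 * k)) := by rw [e8]; ring
    have h7 : 4 ^ m * (2 ^ m * (4 * k)) ≤ 4 ^ m * n := Nat.mul_le_mul_left _ h5
    have h8 : 4 ≤ 4 ^ m := by
      calc 4 = 4 ^ 1 := by norm_num
        _ ≤ 4 ^ m := Nat.pow_le_pow_right (by norm_num) hm1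
    have h9 : 4 * n ≤ 4 ^ m * n := Nat.mul_le_mul_right _ h8
    have h10 : 4 ^ m * (2 ^ m * (4 * k)) = 2 * (4 ^ m * (2 ^ m * (2 * k))) := by ring
    have h11 : 8 ^ m * (2 * ss n k m) = 2 * (8 ^ m * ss n k m) := by ring
    omega

end Pool.Agent.MinRamsey
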