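import Pool.Agent.helper44.MinRamsey.Main
import Pool.Agent.helper90.MinRamsey.Sizes

set_option autoImplicit false

namespace Pool.Agent.MinRamsey

open Filter Topology

/-! ### From the natural-number bounds to real logarithms -/

lemma lower_real (n : ℕ) (hn : 2 ≤ n) :
    (n : ℝ) + Real.logb 2 n - 2 * Real.logb 2 (Real.logb 2 n) - 5 ≤ minRamsey n := by
  have h := minRamsey_lower n hn
  set m := Nat.log 2 n with hm
  set l := Nat.log 2 m with hl
  have hm1 : 1 ≤ m := by
    rw [hm]
    exact Nat.le_log_of_pow_le (by norm_num) (by simpa using hn)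
  have h1 : (n : ℝ) + ((m : ℝ) - 2 * l - 4) ≤ minRamsey n := by
    have h2 : (n : ℤ) + ((m : ℤ) - 2 * l - 4) ≤ minRamsey n := by omega
    exact_mod_cast h2
  have h3 : Real.logb 2 n < m + 1 := by
    have h4 : n < 2 ^ (m + 1) := Nat.lt_pow_succ_log_self (by norm_num) n
    rw [Real.logb_lt_iff_lt_rpow (by norm_num) (by positivity)]
    have h5 : (n : ℝ) < (2 : ℝ) ^ (m + 1) := by exact_mod_cast h4
    calc (n : ℝ) < (2 : ℝ) ^ (m + 1) := h5
      _ = (2 : ℝ) ^ ((m : ℝ) + 1) := by
        rw [← Real.rpow_natCast]; push_cast; rfl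
  have h6 : (m : ℝ) ≤ Real.logb 2 n := by
    have := Real.natLog_le_logb n 2
    exact_mod_cast this
  have h7 : (l : ℝ) ≤ Real.logb 2 (Real.logb 2 n) := by
    have h8 : (l : ℝ) ≤ Real.logb 2 m := by
      have := Real.natLog_le_logb m 2
      exact_mod_cast this
    have h9 : Real.logb 2 m ≤ Real.logb 2 (Real.logb 2 n) := by
      apply Real.logb_le_logb_of_le (by norm_num) _ h6
      exact_mod_cast hm1
    linarith
  linarith

lemma upper_real (n : ℕ) (hn : 2 ≤ n) : (minRamsey n : ℝ) ≤ n + Real.logb 2 n + 3 := by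
  have h := minRamsey_upper n hn
  have h1 : ((Nat.clog 2 n : ℕ) : ℝ) < Real.logb 2 n + 1 := by
    have h2 := Real.natCeil_logb_natCast 2 n
    rw [← h2]
    have h3 : 0 ≤ Real.logb 2 n := Real.logb_nonneg (by norm_num) (by exact_mod_cast (by omega : 1 ≤ n))
    have := Nat.ceil_lt_add_one h3
    exact_mod_cast this
  have h4 : (minRamsey n : ℝ) ≤ n + Nat.clog 2 n + 2 := by exact_mod_cast h
  linarith

lemma add_le_pow (M : ℕ) (hM : 8 ≤ M) : M + 41 ≤ 2 ^ (M - 1) := by
  obtain ⟨m, rfl⟩ : ∃ m, M = m + 8 := ⟨M - 8, by omega⟩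
  have e : m + 8 - 1 = m + 7 := by omega
  rw [e]
  clear hM e
  induction m with
  | zero => norm_num
  | succ m ih => rw [show m + 1 + 7 = (m + 7) + 1 by ring, pow_succ]; omega

lemma logb_lt (n L : ℕ) (hn : 2 ≤ n) (h : n < 2 ^ L) : Real.logb 2 n < L := by
  have hpos : (0 : ℝ) < n := by exact_mod_cast (by omega : 0 < n)
  rw [Real.logb_lt_iff_lt_rpow (by norm_num) hpos, Real.rpow_natCast]
  exact_mod_cast h

/-- the upper bound with the second order term -/
lemma upper_real' (n : ℕ) (hn : 2 ≤ n) :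
    (minRamsey n : ℝ) ≤ n + Real.logb 2 n - Real.logb 2 (Real.logb 2 n) + 11 := by
  have hlog1 : 1 ≤ Real.logb 2 n := by
    rw [Real.le_logb_iff_rpow_le (by norm_num) (by exact_mod_cast (by omega : 0 < n))]
    simpa using (by exact_mod_cast hn : (2 : ℝ) ≤ n)
  obtain ⟨L, hL⟩ : ∃ L, Nat.log 2 n = L := ⟨_, rfl⟩
  have hn1 : 2 ^ L ≤ n := by rw [← hL]; exact Nat.pow_log_le_self 2 (by omega)
  have hn2 : n < 2 ^ (L + 1) := by
    rw [← hL]; exact Nat.lt_pow_succ_log_self (by norm_num) n
  by_cases hL2 : L < 256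
  · have h1 := upper_real n hn
    have h2 : Real.logb 2 n < (256 : ℕ) := by
      apply logb_lt n 256 hn
      exact hn2.trans_le (Nat.pow_le_pow_right (by norm_num) (by omega))
    have h3 : Real.logb 2 (Real.logb 2 n) ≤ 8 := by
      have h4 : Real.logb 2 (Real.logb 2 n) ≤ Real.logb 2 ((2 : ℝ) ^ (8 : ℝ)) := by
        apply Real.logb_le_logb_of_le (by norm_num) (by linarith)
        have : ((2 : ℝ) ^ (8 : ℝ)) = (256 : ℕ) := by norm_num
        rw [this]
        exact h2.le
      rwa [Real.logb_rpow (by norm_num) (by norm_num)] at h4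
    linarith
  · push Not at hL2
    obtain ⟨M, hM⟩ : ∃ M, Nat.log 2 L = M := ⟨_, rfl⟩
    have hM1 : 2 ^ M ≤ L := by rw [← hM]; exact Nat.pow_log_le_self 2 (by omega)
    have hM2 : L < 2 ^ (M + 1) := by
      rw [← hM]; exact Nat.lt_pow_succ_log_self (by norm_num) L
    have hM8 : 8 ≤ M := by
      by_contra hc
      have : 2 ^ (M + 1) ≤ 2 ^ 8 := Nat.pow_le_pow_right (by norm_num) (by omega)
      norm_num at this
      omega
    have hML : M < L := (Nat.lt_two_pow_self).trans_le hM1
    have hpow := add_le_pow M hM8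
    have hd : 2 ^ M = 2 * 2 ^ (M - 1) := by
      obtain ⟨m, rfl⟩ : ∃ m, M = m + 1 := ⟨M - 1, by omega⟩
      rw [Nat.add_sub_cancel, pow_succ]; ring
    have hd2 : 2 ^ (M - 1) = 16 * 2 ^ (M - 5) := by
      obtain ⟨m, rfl⟩ : ∃ m, M = m + 5 := ⟨M - 5, by omega⟩
      rw [show m + 5 - 1 = m + 4 by omega, Nat.add_sub_cancel, pow_add]; norm_num; ring
    have hcore := minRamsey_le_core n (L - M + 7) (2 ^ (M - 5))
      ((Nat.pow_le_pow_right (by norm_num) (by omega)).trans hn1)
      (by
        rw [← pow_add]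
        refine hn2.le.trans (Nat.pow_le_pow_right (by norm_num) (by omega)))
      (by omega)
    have h1 : (minRamsey n : ℝ) ≤ n + (L - M + 6) := by
      have h2 : (minRamsey n : ℤ) ≤ n + (L - M + 6) := by omega
      exact_mod_cast h2
    have h2 : (L : ℝ) ≤ Real.logb 2 n := by
      have := Real.natLog_le_logb n 2
      rw [hL] at this
      exact_mod_cast this
    have h3 : Real.logb 2 (Real.logb 2 n) ≤ M + 1 := by
      have h4 : Real.logb 2 (Real.logb 2 n) ≤ Real.logb 2 ((2 : ℝ) ^ ((M + 1 : ℕ) : ℝ)) := by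
        apply Real.logb_le_logb_of_le (by norm_num) (by linarith)
        have h5 := logb_lt n (L + 1) hn hn2
        have h6 : ((L + 1 : ℕ) : ℝ) ≤ (2 : ℝ) ^ ((M + 1 : ℕ) : ℝ) := by
          rw [Real.rpow_natCast]
          exact_mod_cast hM2
        linarith
      rw [Real.logb_rpow (by norm_num) (by norm_num)] at h4
      push_cast at h4
      exact h4
    linarith

lemma tendsto_L : Tendsto (fun n : ℕ => Real.logb 2 n) atTop atTop :=
  (Real.tendsto_logb_atTop (by norm_num)).comp tendsto_natCast_atTop_atTop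

lemma tendsto_aux : Tendsto (fun x : ℝ => (2 * Real.logb 2 x + 5) / x) atTop (𝓝 0) := by
  have h1 : Tendsto (fun x : ℝ => Real.log x / x) atTop (𝓝 0) := by
    have := Real.isLittleO_log_id_atTop
    exact this.tendsto_div_nhds_zero
  have h2 : Tendsto (fun x : ℝ => (5 : ℝ) / x) atTop (𝓝 0) := tendsto_const_nhds.div_atTop tendsto_id
  have h3 : (fun x : ℝ => (2 * Real.logb 2 x + 5) / x) =
      fun x => (2 / Real.log 2) * (Real.log x / x) + 5 / x := by
    funext x
    unfold Real.logb
    ring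
  rw [h3]
  have := (h1.const_mul (2 / Real.log 2)).add h2
  simpa using this

lemma tendsto_ratio :
    Tendsto (fun n : ℕ => ((minRamsey n : ℝ) - n) / Real.logb 2 n) atTop (𝓝 1) := by
  have hL := tendsto_L
  have hlow : Tendsto (fun n : ℕ => 1 - (2 * Real.logb 2 (Real.logb 2 n) + 5) / Real.logb 2 n)
      atTop (𝓝 1) := by
    have := (tendsto_aux.comp hL).const_sub 1
    simpa using this
  have hup : Tendsto (fun n : ℕ => 1 + 3 / Real.logb 2 n) atTop (𝓝 1) := by
    have h2 : Tendsto (fun n : ℕ => (3 : ℝ) / Real.logb 2 n) atTop (𝓝 0) :=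
      tendsto_const_nhds.div_atTop hL
    have := h2.const_add 1
    simpa using this
  refine tendsto_of_tendsto_of_tendsto_of_le_of_le' hlow hup ?_ ?_
  · filter_upwards [eventually_ge_atTop 2, hL.eventually_gt_atTop 0] with n hn hpos
    have h := lower_real n hn
    rw [le_div_iff₀ hpos, sub_mul, div_mul_cancel₀ _ hpos.ne']
    linarith
  · filter_upwards [eventually_ge_atTop 2, hL.eventually_gt_atTop 0] with n hn hpos
    have h := upper_real n hn
    rw [div_le_iff₀ hpos, add_mul, div_mul_cancel₀ _ hpos.ne']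
    linarith

end Pool.Agent.MinRamsey
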