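import Pool.Agent.helper90.MinRamsey.Restart

set_option autoImplicit false

namespace Pool.Agent.MinRamsey

open SimpleGraph Finset

/-! ### The last star -/

section last

variable {V : Type} [Fintype V]

/-- From the stage `k - 1` of one colour to the stage `k` of one of the two colours. -/
lemma last_star (R B : SimpleGraph V) (hRB : ∀ u v, u ≠ v → R.Adj u v ∨ B.Adj u v) (s : ℕ → ℕ)
    (k n : ℕ) (hk : 1 ≤ k) (hsum : k + ∑ j ∈ range k, s j = n)
    (hV : Fintype.card V = n + (k - 1))
    (σ : ℕ) (hσ : s (k - 1) = σ) (hσ1 : 1 ≤ σ) (hσk : 16 * σ ≤ k)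
    (h4 : (σ + 1) * (∑ j ∈ Ico (σ + 1) k, s j + k) ≤ n)
    (h5 : 8 * (∑ j ∈ Ico 1 k, s j + k) ≤ 7 * n)
    (h6 : ∀ m, 1 ≤ m → m ≤ σ → n ≤ 8 ^ m * s m)
    (h1 : Stage R s k (k - 1)) : Stage R s k k ∨ Stage B s k k := by
  classical
  obtain ⟨c, hc, hJ⟩ := h1
  obtain ⟨l, hl, hlp⟩ := hall R s c (fun J hJn => (Nat.le_add_right _ _).trans (hJ J hJn))
  have hsum' : ∑ j ∈ range (k - 1), s j + σ = ∑ j ∈ range k, s j := by
    obtain ⟨k', rfl⟩ : ∃ k', k = k' + 1 := ⟨k - 1, by omega⟩
    rw [sum_range_succ]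
    simp only [Nat.add_sub_cancel] at hσ ⊢
    rw [hσ]
  set A : Finset V := univ \ (univ.image c ∪ univ.image l) with hA
  set U : Finset V := univ \ univ.image c with hU
  have himg : (univ.image c).card = k - 1 := by
    rw [card_image_of_injective _ hc]; simp
  have hUc : U.card = n := by
    have e1 := Finset.card_sdiff_add_card_eq_card (subset_univ (univ.image c))
    rw [← hU, himg, card_univ, hV] at e1
    omega
  have hAc : k + σ ≤ A.card := by
    have e1 := Finset.le_card_sdiff (univ.image c ∪ univ.image l) (univ : Finset V)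
    rw [← hA, card_univ, hV] at e1
    have e2 := card_union_le (univ.image c) (univ.image l)
    have a2 : (univ.image l).card ≤ ∑ j ∈ range (k - 1), s j := by
      have := card_image_le (s := (univ : Finset (Σ j : Fin (k - 1), Fin (s j)))) (f := l)
      rw [card_univ, Fintype.card_sigma] at this
      simp only [Fintype.card_fin] at this
      rw [Finset.sum_range]
      exact this
    omega
  by_cases hex : ∃ b ∈ U, σ + 1 ≤ rd R A b
  · left
    obtain ⟨b, hb, hbd⟩ := hex
    obtain ⟨D, hD, hDc⟩ := Finset.exists_subset_card_eq (s := A.filter (fun v => R.Adj b v))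
      (n := s (k - 1) + (k - (k - 1))) (by
        have e : (A.filter (fun v => R.Adj b v)).card = rd R A b := rfl
        omega)
    have hst := extend R s k (k - 1) (by omega) c hc hJ l hl hlp b (by
        intro j h
        rw [hU, mem_sdiff] at hb
        exact hb.2 (by rw [← h]; exact mem_image_of_mem _ (mem_univ _))) D hDc (by
        intro v hv
        exact (mem_filter.1 (hD hv)).2) (by
        intro v hv j h
        have := (mem_filter.1 (hD hv)).1
        rw [hA, mem_sdiff] at this
        apply this.2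
        rw [← h]
        exact mem_union_left _ (mem_image_of_mem _ (mem_univ _))) (by
        intro v hv p h
        have := (mem_filter.1 (hD hv)).1
        rw [hA, mem_sdiff] at this
        apply this.2
        rw [← h]
        exact mem_union_right _ (mem_image_of_mem _ (mem_univ _)))
    have e : k - 1 + 1 = k := by omega
    rw [e] at hst
    exact hst
  · right
    push Not at hex
    exact restart R B hRB s k n σ hsum hσ1 hσk h4 h5 h6 U A hUc hAc
      (fun v hv => Nat.lt_succ_iff.1 (hex v hv))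

end last

/-- a sequence of star sizes gives an upper bound for `minRamsey` -/
lemma minRamsey_le_of_sizes' (n k : ℕ) (s : ℕ → ℕ) (hk : 1 ≤ k) (hs1 : ∀ j < k, 1 ≤ s j)
    (hsum : k + ∑ j ∈ range k, s j = n)
    (hs : ∀ i < k - 1, 2 * (s i + (k - i)) + i + ∑ j ∈ range i, s j + (k - 1 - 1) ≤ n + (k - 1))
    (hσk : 16 * s (k - 1) ≤ k)
    (h4 : (s (k - 1) + 1) * (∑ j ∈ Ico (s (k - 1) + 1) k, s j + k) ≤ n)
    (h5 : 8 * (∑ j ∈ Ico 1 k, s j + k) ≤ 7 * n)
    (h6 : ∀ m, 1 ≤ m → m ≤ s (k - 1) → n ≤ 8 ^ m * s m) :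
    minRamsey n ≤ n + (k - 1) := by
  classical
  have hcard : Fintype.card (Σ j : Fin k, Option (Fin (s j))) = n := by
    rw [Fintype.card_sigma]
    simp only [Fintype.card_option, Fintype.card_fin]
    rw [sum_add_distrib, ← Finset.sum_range (fun j => s j)]
    simp
    omega
  let e : (Σ j : Fin k, Option (Fin (s j))) ≃ Fin n := Fintype.equivFinOfCardEq hcard
  let G : SimpleGraph (Fin n) := (starForest s k).comap e.symm
  have hG : ∀ v, ∃ w, G.Adj v w := by
    intro v
    obtain ⟨w, hw⟩ := starForest_no_isolated s k hs1 (e.symm v)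
    refine ⟨e w, ?_⟩
    simp only [G, SimpleGraph.comap_adj, Equiv.symm_apply_apply]
    exact hw
  have hGF : G ⊑ starForest s k :=
    ⟨⟨⟨e.symm, fun {a b} h => h⟩, e.symm.injective⟩⟩
  have hσ1 : 1 ≤ s (k - 1) := hs1 _ (by omega)
  have harr : Arrows G (n + (k - 1)) := by
    intro H
    have hRB : ∀ u v : Fin (n + (k - 1)), u ≠ v → H.Adj u v ∨ Hᶜ.Adj u v := fun u v huv => by
      rw [SimpleGraph.compl_adj]
      by_cases h : H.Adj u v
      · exact Or.inl h
      · exact Or.inr ⟨huv, h⟩
    have hBR : ∀ u v : Fin (n + (k - 1)), u ≠ v → Hᶜ.Adj u v ∨ H.Adj u v := fun u v huv =>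
      (hRB u v huv).symm
    have key : Stage H s k k ∨ Stage Hᶜ s k k := by
      rcases run_to H Hᶜ hRB s k (k - 1) (by omega) (by simpa using hs) with h | h
      · exact last_star H Hᶜ hRB s k n hk hsum (by simp) (s (k - 1)) rfl hσ1 hσk h4 h5 h6 h
      · exact (last_star Hᶜ H hBR s k n hk hsum (by simp) (s (k - 1)) rfl hσ1 hσk h4 h5 h6 h).symm
    rcases key with h | h
    · left; exact hGF.trans (contained_of_stage _ _ _ h)
    · right; exact hGF.trans (contained_of_stage _ _ _ h)
  have h1 : ramseyNumber G ≤ n + (k - 1) := Nat.sInf_le harr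
  have h2 : minRamsey n ≤ ramseyNumber G := Nat.sInf_le ⟨G, hG, rfl⟩
  exact h2.trans h1

end Pool.Agent.MinRamsey
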