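import Pool.Agent.helper90.MinRamsey.Run

set_option autoImplicit false

namespace Pool.Agent.MinRamsey

open SimpleGraph Finset

/-! ### Restarting the second colour inside the unused set of the first colour -/

section restart

variable {V : Type} [Fintype V]

open Classical in
/-- vertices of `U` outside `S` without a `B`-neighbour in `S` -/
noncomputable def Zs (B : SimpleGraph V) (U S : Finset V) : Finset V :=
  U.filter (fun v => v ∉ S ∧ ∀ a ∈ S, ¬ B.Adj a v)

lemma mem_Zs (B : SimpleGraph V) (U S : Finset V) (v : V) :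
    v ∈ Zs B U S ↔ v ∈ U ∧ v ∉ S ∧ ∀ a ∈ S, ¬ B.Adj a v := by
  classical
  unfold Zs
  rw [mem_filter]

open Classical in
/-- number of `R`-neighbours of `a` in `U` -/
noncomputable def rd (R : SimpleGraph V) (U : Finset V) (a : V) : ℕ :=
  (U.filter (fun v => R.Adj a v)).card

omit [Fintype V] in
lemma sum_rd (R : SimpleGraph V) (A U : Finset V) :
    ∑ a ∈ A, rd R U a = ∑ v ∈ U, rd R A v := by
  classical
  unfold rd
  simp only [card_filter]
  rw [sum_comm]
  refine sum_congr rfl fun v _ => sum_congr rfl fun a _ => ?_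
  simp [R.adj_comm]

omit [Fintype V] in
lemma rd_mono (R : SimpleGraph V) {A A' : Finset V} (h : A' ⊆ A) (v : V) :
    rd R A' v ≤ rd R A v := by
  classical
  unfold rd
  exact card_le_card (filter_subset_filter _ h)

lemma exists_pick (R B : SimpleGraph V) (σ : ℕ) (hσ1 : 1 ≤ σ) (U A A' S : Finset V)
    (hA' : A' ⊆ A) (hred : ∀ v ∈ U, rd R A v ≤ σ) (hS : S.card + 8 * σ ≤ A'.card) :
    ∃ a ∈ A', a ∉ S ∧ 8 * rd R (Zs B U S) a ≤ (Zs B U S).card := by
  classical
  by_contra hcon
  push Not at hcon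
  set Z := Zs B U S with hZ
  have hZU : Z ⊆ U := by
    intro v hv
    rw [hZ, mem_Zs] at hv
    exact hv.1
  have h1 : ∑ a ∈ A' \ S, rd R Z a ≤ Z.card * σ := by
    rw [sum_rd]
    have : ∀ v ∈ Z, rd R (A' \ S) v ≤ σ := fun v hv =>
      (rd_mono R (sdiff_subset.trans hA') v).trans (hred v (hZU hv))
    have := Finset.sum_le_card_nsmul Z _ _ this
    simpa using this
  have h2 : (A' \ S).card * (Z.card + 1) ≤ ∑ a ∈ A' \ S, 8 * rd R Z a := by
    have : ∀ a ∈ A' \ S, Z.card + 1 ≤ 8 * rd R Z a := by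
      intro a ha
      rw [mem_sdiff] at ha
      exact hcon a ha.1 ha.2
    have := Finset.card_nsmul_le_sum (A' \ S) _ _ this
    simpa using this
  rw [← mul_sum] at h2
  have h3 : 8 * σ ≤ (A' \ S).card := by
    have := Finset.le_card_sdiff S A'
    omega
  have h4 : 8 * σ * (Z.card + 1) ≤ (A' \ S).card * (Z.card + 1) := Nat.mul_le_mul_right _ h3
  nlinarith

lemma sum_fin_le (k : ℕ) (s : ℕ → ℕ) (J : Finset (Fin k)) (T : Finset ℕ)
    (h : ∀ j ∈ J, (j : ℕ) ∈ T) : ∑ j ∈ J, s j ≤ ∑ i ∈ T, s i := by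
  have e : ∑ j ∈ J, s j = ∑ i ∈ J.map Fin.valEmbedding, s i := by
    rw [sum_map]; rfl
  rw [e]
  apply sum_le_sum_of_subset
  intro i hi
  rw [mem_map] at hi
  obtain ⟨j, hj, rfl⟩ := hi
  exact h j hj

/-- If all but few vertices have at most `σ` red neighbours in a set `A` of `k + σ` vertices, then
the blue graph has a stage `k`. -/
lemma restart (R B : SimpleGraph V) (hRB : ∀ u v, u ≠ v → R.Adj u v ∨ B.Adj u v) (s : ℕ → ℕ)
    (k n σ : ℕ) (hsum : k + ∑ j ∈ range k, s j = n) (hσ1 : 1 ≤ σ) (hσk : 16 * σ ≤ k)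
    (h4 : (σ + 1) * (∑ j ∈ Ico (σ + 1) k, s j + k) ≤ n)
    (h5 : 8 * (∑ j ∈ Ico 1 k, s j + k) ≤ 7 * n)
    (h6 : ∀ m, 1 ≤ m → m ≤ σ → n ≤ 8 ^ m * s m)
    (U A : Finset V) (hU : U.card = n) (hA : k + σ ≤ A.card)
    (hred : ∀ v ∈ U, rd R A v ≤ σ) : Stage B s k k := by
  classical
  -- the total red degree
  have htot : ∀ A0 : Finset V, A0 ⊆ A → ∑ a ∈ A0, rd R U a ≤ n * σ := by
    intro A0 hA0
    rw [sum_rd]
    have : ∀ v ∈ U, rd R A0 v ≤ σ := fun v hv => (rd_mono R hA0 v).trans (hred v hv)
    have := Finset.sum_le_card_nsmul U _ _ this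
    rw [hU] at this
    simpa using this
  -- the bad vertices
  set Bad : Finset V := A.filter (fun a => n < 8 * rd R U a) with hBad
  have hBadc : Bad.card ≤ 8 * σ := by
    by_contra hc
    push Not at hc
    have h1 := htot Bad (filter_subset _ _)
    have h2 : Bad.card * (n + 1) ≤ ∑ a ∈ Bad, 8 * rd R U a := by
      have : ∀ a ∈ Bad, n + 1 ≤ 8 * rd R U a := by
        intro a ha
        rw [hBad, mem_filter] at ha
        exact ha.2
      have := Finset.card_nsmul_le_sum Bad _ _ this
      simpa using this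
    rw [← mul_sum] at h2
    have h3 : (8 * σ + 1) * (n + 1) ≤ Bad.card * (n + 1) := Nat.mul_le_mul_right _ hc
    nlinarith
  set A' : Finset V := A \ Bad with hA'
  have hA'A : A' ⊆ A := sdiff_subset
  have hA'c : k + σ ≤ A'.card + 8 * σ := by
    have := Finset.le_card_sdiff Bad A
    rw [← hA'] at this
    omega
  have hA'good : ∀ a ∈ A', 8 * rd R U a ≤ n := by
    intro a ha
    rw [hA', mem_sdiff, hBad, mem_filter] at ha
    by_contra hc
    exact ha.2 ⟨ha.1, by omega⟩
  -- the greedy choice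
  have hpick : ∀ S : Finset V, S.card ≤ σ → ∃ a ∈ A', a ∉ S ∧
      8 * rd R (Zs B U S) a ≤ (Zs B U S).card := by
    intro S hS
    exact exists_pick R B σ hσ1 U A A' S hA'A hred (by omega)
  have : Nonempty V := ⟨(Finset.card_pos.1 (by omega : 0 < A.card)).choose⟩
  choose! pick hpick using hpick
  let S : ℕ → Finset V := fun m => Nat.rec ∅ (fun _ T => insert (pick T) T) m
  have hS0 : S 0 = ∅ := rfl
  have hSs : ∀ m, S (m + 1) = insert (pick (S m)) (S m) := fun m => rfl
  have hS : ∀ m ≤ σ + 1, S m ⊆ A' ∧ (S m).card = m ∧ 8 ^ m * (Zs B U (S m)).card ≤ n := by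
    intro m
    induction m with
    | zero =>
      intro _
      refine ⟨by rw [hS0]; exact empty_subset _, by rw [hS0]; rfl, ?_⟩
      rw [pow_zero, one_mul, ← hU]
      exact card_le_card (by unfold Zs; exact filter_subset _ _)
    | succ m ih =>
      intro hm
      obtain ⟨i1, i2, i3⟩ := ih (by omega)
      obtain ⟨p1, p2, p3⟩ := hpick (S m) (by omega)
      rw [hSs]
      refine ⟨?_, ?_, ?_⟩
      · intro v hv
        rw [mem_insert] at hv
        rcases hv with rfl | hv
        · exact p1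
        · exact i1 hv
      · rw [card_insert_of_notMem p2, i2]
      · have hsub : Zs B U (insert (pick (S m)) (S m)) ⊆
            (Zs B U (S m)).filter (fun v => R.Adj (pick (S m)) v) := by
          intro v hv
          rw [mem_Zs] at hv
          obtain ⟨v1, v2, v3⟩ := hv
          rw [mem_insert, not_or] at v2
          rw [mem_filter, mem_Zs]
          refine ⟨⟨v1, v2.2, fun a ha => v3 a (mem_insert_of_mem ha)⟩, ?_⟩
          rcases hRB (pick (S m)) v (fun h => v2.1 h.symm) with h | h
          · exact h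
          · exact absurd h (v3 _ (mem_insert_self _ _))
        have h7 := card_le_card hsub
        have h8 : ((Zs B U (S m)).filter (fun v => R.Adj (pick (S m)) v)).card =
            rd R (Zs B U (S m)) (pick (S m)) := rfl
        rw [h8] at h7
        calc 8 ^ (m + 1) * (Zs B U (insert (pick (S m)) (S m))).card
            ≤ 8 ^ (m + 1) * rd R (Zs B U (S m)) (pick (S m)) := Nat.mul_le_mul_left _ h7
          _ = 8 ^ m * (8 * rd R (Zs B U (S m)) (pick (S m))) := by ring
          _ ≤ 8 ^ m * (Zs B U (S m)).card := Nat.mul_le_mul_left _ p3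
          _ ≤ n := i3
  let g : ℕ → V := fun m => pick (S m)
  have hSmem : ∀ m v, v ∈ S m ↔ ∃ i < m, g i = v := by
    intro m
    induction m with
    | zero => intro v; simp [hS0]
    | succ m ih =>
      intro v
      rw [hSs, mem_insert, ih]
      constructor
      · rintro (rfl | ⟨i, hi, rfl⟩)
        · exact ⟨m, by omega, rfl⟩
        · exact ⟨i, by omega, rfl⟩
      · rintro ⟨i, hi, rfl⟩
        rcases Nat.lt_succ_iff_lt_or_eq.mp hi with h | h
        · exact Or.inr ⟨i, h, rfl⟩
        · subst h; exact Or.inl rfl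
  have hgA : ∀ i ≤ σ, g i ∈ A' := fun i hi => (hpick (S i) (by rw [(hS i (by omega)).2.1]; exact hi)).1
  have hgn : ∀ i ≤ σ, g i ∉ S i := fun i hi =>
    (hpick (S i) (by rw [(hS i (by omega)).2.1]; exact hi)).2.1
  have hginj : ∀ i ≤ σ, ∀ j ≤ σ, g i = g j → i = j := by
    intro i hi j hj h
    rcases lt_trichotomy i j with h1 | h1 | h1
    · exact absurd ((hSmem j (g j)).2 ⟨i, h1, h⟩) (hgn j hj)
    · exact h1
    · exact absurd ((hSmem i (g i)).2 ⟨j, h1, h.symm⟩) (hgn i hi)
  have hZe : Zs B U (S (σ + 1)) = ∅ := by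
    rw [Finset.eq_empty_iff_forall_notMem]
    intro v hv
    rw [mem_Zs] at hv
    obtain ⟨v1, v2, v3⟩ := hv
    have hsub : S (σ + 1) ⊆ A.filter (fun a => R.Adj v a) := by
      intro a ha
      rw [mem_filter]
      refine ⟨hA'A ((hS (σ + 1) le_rfl).1 ha), ?_⟩
      rcases hRB a v (fun h => v2 (h ▸ ha)) with h | h
      · exact h.symm
      · exact absurd h (v3 a ha)
    have h7 := card_le_card hsub
    rw [(hS (σ + 1) le_rfl).2.1] at h7
    have h8 : (A.filter (fun a => R.Adj v a)).card = rd R A v := rfl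
    have := hred v v1
    omega
  -- the remaining centres
  set τ : ℕ := ∑ j ∈ Ico (σ + 1) k, s j + k with hτ
  set Terr : Finset V := A.filter (fun a => n < rd R U a + τ) with hTerr
  have hTerrc : Terr.card ≤ σ := by
    by_contra hc
    push Not at hc
    obtain ⟨T0, hT0, hT0c⟩ := Finset.exists_subset_card_eq (s := Terr) (n := σ + 1) (by omega)
    have h1 := htot T0 (hT0.trans (filter_subset _ _))
    have h2 : T0.card * (n + 1) ≤ ∑ a ∈ T0, (rd R U a + τ) := by
      have : ∀ a ∈ T0, n + 1 ≤ rd R U a + τ := by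
        intro a ha
        have := hT0 ha
        rw [hTerr, mem_filter] at this
        exact this.2
      have := Finset.card_nsmul_le_sum T0 _ _ this
      simpa using this
    rw [sum_add_distrib, sum_const, hT0c, smul_eq_mul] at h2
    nlinarith
  have hRest : k ≤ (A \ (Terr ∪ S (σ + 1))).card + (σ + 1) := by
    have e1 := Finset.le_card_sdiff (Terr ∪ S (σ + 1)) A
    have e2 := card_union_le Terr (S (σ + 1))
    rw [(hS (σ + 1) le_rfl).2.1] at e2
    omega
  obtain ⟨T, hT, hTc⟩ := Finset.exists_subset_card_eq (s := A \ (Terr ∪ S (σ + 1)))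
    (n := k - (σ + 1)) (by omega)
  let e : T ≃ Fin (k - (σ + 1)) := Finset.equivFinOfCardEq hTc
  let a : Fin k → V := fun j =>
    if h : (j : ℕ) < σ + 1 then g j else (e.symm ⟨(j : ℕ) - (σ + 1), by omega⟩ : V)
  have ha1 : ∀ j : Fin k, (j : ℕ) < σ + 1 → a j = g j := by
    intro j hj
    simp only [a, hj, dif_pos]
  have ha2 : ∀ j : Fin k, ¬ (j : ℕ) < σ + 1 → a j ∈ T := by
    intro j hj
    simp only [a, hj, dif_neg, not_false_eq_true]
    exact Subtype.mem _
  have haA : ∀ j, a j ∈ A := by
    intro j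
    by_cases hj : (j : ℕ) < σ + 1
    · rw [ha1 j hj]; exact hA'A (hgA j (by omega))
    · exact (mem_sdiff.1 (hT (ha2 j hj))).1
  have hainj : Function.Injective a := by
    intro i j h
    by_cases hi : (i : ℕ) < σ + 1
    · by_cases hj : (j : ℕ) < σ + 1
      · rw [ha1 i hi, ha1 j hj] at h
        exact Fin.ext (hginj i (by omega) j (by omega) h)
      · exfalso
        have h1 := (mem_sdiff.1 (hT (ha2 j hj))).2
        apply h1
        rw [mem_union]; right
        exact (hSmem (σ + 1) _).2 ⟨i, hi, by rw [← h, ha1 i hi]⟩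
    · by_cases hj : (j : ℕ) < σ + 1
      · exfalso
        have h1 := (mem_sdiff.1 (hT (ha2 i hi))).2
        apply h1
        rw [mem_union]; right
        exact (hSmem (σ + 1) _).2 ⟨j, hj, by rw [h, ha1 j hj]⟩
      · simp only [a, hi, hj, dif_neg, not_false_eq_true] at h
        have h1 := e.symm.injective (Subtype.ext h)
        rw [Fin.mk.injEq] at h1
        apply Fin.ext
        omega
  have hard1 : ∀ j : Fin k, (j : ℕ) < σ + 1 → 8 * rd R U (a j) ≤ n := by
    intro j hj
    rw [ha1 j hj]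
    exact hA'good _ (hgA j (by omega))
  have hard2 : ∀ j : Fin k, ¬ (j : ℕ) < σ + 1 → rd R U (a j) + τ ≤ n := by
    intro j hj
    have h1 := mem_sdiff.1 (hT (ha2 j hj))
    by_contra hc
    apply h1.2
    rw [mem_union]; left
    rw [hTerr, mem_filter]
    exact ⟨h1.1, by omega⟩
  -- the leaves
  set W : Finset V := U \ univ.image a with hW
  have himg : (univ.image a).card = k := by
    rw [card_image_of_injective _ hainj]; simp
  have hWc : n ≤ W.card + k := by
    have := Finset.le_card_sdiff (univ.image a) U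
    rw [← hW] at this
    omega
  have hWne : ∀ v ∈ W, ∀ j, a j ≠ v := by
    intro v hv j h
    rw [hW, mem_sdiff] at hv
    exact hv.2 (by rw [← h]; exact mem_image_of_mem _ (mem_univ _))
  refine ⟨a, hainj, ?_⟩
  intro J hJne
  have hcov : ∀ j ∈ J, n ≤ (nb B a J).card + k + rd R U (a j) := by
    intro j hj
    have hsub : W \ U.filter (fun v => R.Adj (a j) v) ⊆ nb B a J := by
      intro v hv
      rw [mem_sdiff] at hv
      rw [mem_nb]
      refine ⟨hWne v hv.1, j, hj, ?_⟩
      have hvU : v ∈ U := (mem_sdiff.1 hv.1).1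
      rcases hRB (a j) v (hWne v hv.1 j) with h | h
      · exact absurd (mem_filter.2 ⟨hvU, h⟩) hv.2
      · exact h
    have h7 := card_le_card hsub
    have h8 := Finset.le_card_sdiff (U.filter (fun v => R.Adj (a j) v)) W
    have h9 : (U.filter (fun v => R.Adj (a j) v)).card = rd R U (a j) := rfl
    omega
  have hSa : ∀ m ≤ σ + 1, ∀ v ∈ S m, ∃ j : Fin k, (j : ℕ) < m ∧ a j = v := by
    intro m hm v hv
    rw [hSmem] at hv
    obtain ⟨i, hi, rfl⟩ := hv
    exact ⟨⟨i, by omega⟩, hi, ha1 _ (by show i < σ + 1; omega)⟩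
  have hcovS : ∀ m ≤ σ + 1, (∀ i < m, ∃ j ∈ J, (j : ℕ) = i) →
      n ≤ (nb B a J).card + k + (Zs B U (S m)).card := by
    intro m hm hJm
    have hsub : W \ Zs B U (S m) ⊆ nb B a J := by
      intro v hv
      rw [mem_sdiff] at hv
      rw [mem_nb]
      refine ⟨hWne v hv.1, ?_⟩
      have hvU : v ∈ U := (mem_sdiff.1 hv.1).1
      have hvS : v ∉ S m := by
        intro h
        obtain ⟨j, _, hj⟩ := hSa m hm v h
        exact hWne v hv.1 j hj
      by_contra hc
      push Not at hc
      apply hv.2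
      rw [mem_Zs]
      refine ⟨hvU, hvS, ?_⟩
      intro b hb hadj
      obtain ⟨j, hj, rfl⟩ := hSa m hm b hb
      obtain ⟨j', hj', hjj⟩ := hJm j hj
      have : j' = j := Fin.ext hjj
      subst this
      exact hc j' hj' hadj
    have h7 := card_le_card hsub
    have h8 := Finset.le_card_sdiff (Zs B U (S m)) W
    omega
  rw [Nat.sub_self, Nat.add_zero]
  by_cases h0 : ∃ j ∈ J, (j : ℕ) = 0
  · by_cases hall : ∀ i < σ + 1, ∃ j ∈ J, (j : ℕ) = i
    · have h7 := hcovS (σ + 1) le_rfl hall
      rw [hZe, card_empty] at h7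
      have h8 := sum_fin_le k s J (range k) (fun j _ => mem_range.2 j.2)
      omega
    · push Not at hall
      obtain ⟨m, ⟨hm1, hm2⟩, hmin⟩ : ∃ m, (m < σ + 1 ∧ ∀ j ∈ J, (j : ℕ) ≠ m) ∧
          ∀ i < m, ¬ (i < σ + 1 ∧ ∀ j ∈ J, (j : ℕ) ≠ i) := by
        refine ⟨Nat.find hall, Nat.find_spec hall, fun i hi => Nat.find_min hall hi⟩
      have hm0 : 1 ≤ m := by
        rcases Nat.eq_zero_or_pos m with h | h
        · subst h
          obtain ⟨j, hj, hj0⟩ := h0
          exact absurd hj0 (hm2 j hj)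
        · exact h
      have h7 := hcovS m (by omega) (by
        intro i hi
        have := hmin i hi
        push Not at this
        exact this (by omega))
      have h8 : (Zs B U (S m)).card ≤ s m := by
        have e1 := (hS m (by omega)).2.2
        have e2 := h6 m hm0 (by omega)
        exact Nat.le_of_mul_le_mul_left (e1.trans e2) (by positivity)
      have h9 : ∑ j ∈ J, s j + s m ≤ ∑ j ∈ range k, s j := by
        have e1 : ∑ j ∈ J, s j ≤ ∑ i ∈ (range k).erase m, s i := by
          apply sum_fin_le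
          intro j hj
          rw [mem_erase, mem_range]
          exact ⟨hm2 j hj, j.2⟩
        have e2 := Finset.sum_erase_add (range k) s (a := m) (by rw [mem_range]; omega)
        omega
      omega
  · push Not at h0
    by_cases h1 : ∃ j ∈ J, (j : ℕ) < σ + 1
    · obtain ⟨j, hj, hj1⟩ := h1
      have h7 := hcov j hj
      have h8 := hard1 j hj1
      have h9 := sum_fin_le k s J (Ico 1 k) (by
        intro i hi
        rw [mem_Ico]
        exact ⟨Nat.one_le_iff_ne_zero.2 (h0 i hi), i.2⟩)
      omega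
    · push Not at h1
      obtain ⟨j, hj⟩ := hJne
      have h7 := hcov j hj
      have h8 := hard2 j (by have := h1 j hj; omega)
      have h9 := sum_fin_le k s J (Ico (σ + 1) k) (by
        intro i hi
        rw [mem_Ico]
        exact ⟨h1 i hi, i.2⟩)
      omega

end restart

end Pool.Agent.MinRamsey
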