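import Pool.Agent.helper44.MinRamsey.Upper

set_option autoImplicit false

namespace Pool.Agent.MinRamsey

open SimpleGraph Finset

/-! ### The simultaneous greedy embedding, stopped at stage `m` -/

section greedy

variable {V : Type} [Fintype V]

/-- one step of the simultaneous greedy procedure, up to stage `m` (adapted from helper44) -/
lemma step_to (R B : SimpleGraph V) (hRB : ∀ u v, u ≠ v → R.Adj u v ∨ B.Adj u v) (s : ℕ → ℕ)
    (k m : ℕ) (hmk : m ≤ k)
    (hs : ∀ i < m, 2 * (s i + (k - i)) + i + ∑ j ∈ range i, s j + (m - 1) ≤ Fintype.card V)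
    (i i' : ℕ) (hi : i < m) (hi' : i' < m) (h1 : Stage R s k i) (h2 : Stage B s k i') :
    Stage R s k (i + 1) ∨ Stage B s k (i' + 1) := by
  classical
  obtain ⟨c, hc, hJ⟩ := h1
  obtain ⟨c', hc', hJ'⟩ := h2
  obtain ⟨l, hl, hlp⟩ := hall R s c (fun J hJn => (Nat.le_add_right _ _).trans (hJ J hJn))
  obtain ⟨l', hl', hlp'⟩ := hall B s c' (fun J hJn => (Nat.le_add_right _ _).trans (hJ' J hJn))
  set X : Finset V := univ \ ((univ.image c ∪ univ.image l) ∪ univ.image c') with hX
  set Y : Finset V := univ \ ((univ.image c' ∪ univ.image l') ∪ univ.image c) with hY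
  have hcardsig : ∀ a : ℕ, Fintype.card (Σ j : Fin a, Fin (s j)) = ∑ j ∈ range a, s j := by
    intro a
    rw [Fintype.card_sigma]
    simp only [Fintype.card_fin]
    rw [Finset.sum_range]
  have hXc : Fintype.card V ≤ X.card + (i + ∑ j ∈ range i, s j + i') := by
    have e1 : (univ : Finset V).card - ((univ.image c ∪ univ.image l) ∪ univ.image c').card ≤ X.card :=
      Finset.le_card_sdiff _ _
    have e2 : ((univ.image c ∪ univ.image l) ∪ univ.image c').card ≤ i + ∑ j ∈ range i, s j + i' := by
      refine (card_union_le _ _).trans ?_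
      have e3 : (univ.image c ∪ univ.image l).card ≤ i + ∑ j ∈ range i, s j := by
        refine (card_union_le _ _).trans ?_
        have a1 : (univ.image c).card ≤ i := by
          simpa using (card_image_le (s := (univ : Finset (Fin i))) (f := c))
        have a2 : (univ.image l).card ≤ ∑ j ∈ range i, s j := by
          have := card_image_le (s := (univ : Finset (Σ j : Fin i, Fin (s j)))) (f := l)
          rw [card_univ, hcardsig] at this
          exact this
        omega
      have a3 : (univ.image c').card ≤ i' := by
        simpa using (card_image_le (s := (univ : Finset (Fin i'))) (f := c'))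
      omega
    rw [card_univ] at e1
    omega
  have hYc : Fintype.card V ≤ Y.card + (i' + ∑ j ∈ range i', s j + i) := by
    have e1 : (univ : Finset V).card - ((univ.image c' ∪ univ.image l') ∪ univ.image c).card ≤ Y.card :=
      Finset.le_card_sdiff _ _
    have e2 : ((univ.image c' ∪ univ.image l') ∪ univ.image c).card ≤ i' + ∑ j ∈ range i', s j + i := by
      refine (card_union_le _ _).trans ?_
      have e3 : (univ.image c' ∪ univ.image l').card ≤ i' + ∑ j ∈ range i', s j := by
        refine (card_union_le _ _).trans ?_
        have a1 : (univ.image c').card ≤ i' := by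
          simpa using (card_image_le (s := (univ : Finset (Fin i'))) (f := c'))
        have a2 : (univ.image l').card ≤ ∑ j ∈ range i', s j := by
          have := card_image_le (s := (univ : Finset (Σ j : Fin i', Fin (s j)))) (f := l')
          rw [card_univ, hcardsig] at this
          exact this
        omega
      have a3 : (univ.image c).card ≤ i := by
        simpa using (card_image_le (s := (univ : Finset (Fin i))) (f := c))
      omega
    rw [card_univ] at e1
    omega
  have hs1 := hs i hi
  have hs2 := hs i' hi'
  rcases double_count R B hRB X Y (s i + (k - i)) (s i' + (k - i')) (by omega) (by omega)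
    (by omega) (by omega) with ⟨b, hb, D, hDX, hDc, hDadj⟩ | ⟨a, ha, D, hDY, hDc, hDadj⟩
  · left
    have hb' : b ∉ univ.image c := by
      intro h
      rw [hY, mem_sdiff] at hb
      exact hb.2 (mem_union_right _ h)
    refine extend R s k i (by omega) c hc hJ l hl hlp b ?_ D hDc hDadj ?_ ?_
    · intro j hj
      exact hb' (by rw [← hj]; exact mem_image_of_mem _ (mem_univ _))
    · intro v hv j hj
      have := hDX hv
      rw [hX, mem_sdiff] at this
      apply this.2
      rw [← hj]
      exact mem_union_left _ (mem_union_left _ (mem_image_of_mem _ (mem_univ _)))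
    · intro v hv p hp
      have := hDX hv
      rw [hX, mem_sdiff] at this
      apply this.2
      rw [← hp]
      exact mem_union_left _ (mem_union_right _ (mem_image_of_mem _ (mem_univ _)))
  · right
    have ha' : a ∉ univ.image c' := by
      intro h
      rw [hX, mem_sdiff] at ha
      exact ha.2 (mem_union_right _ h)
    refine extend B s k i' (by omega) c' hc' hJ' l' hl' hlp' a ?_ D hDc hDadj ?_ ?_
    · intro j hj
      exact ha' (by rw [← hj]; exact mem_image_of_mem _ (mem_univ _))
    · intro v hv j hj
      have := hDY hv
      rw [hY, mem_sdiff] at this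
      apply this.2
      rw [← hj]
      exact mem_union_left _ (mem_union_left _ (mem_image_of_mem _ (mem_univ _)))
    · intro v hv p hp
      have := hDY hv
      rw [hY, mem_sdiff] at this
      apply this.2
      rw [← hp]
      exact mem_union_left _ (mem_union_right _ (mem_image_of_mem _ (mem_univ _)))

lemma run_to (R B : SimpleGraph V) (hRB : ∀ u v, u ≠ v → R.Adj u v ∨ B.Adj u v) (s : ℕ → ℕ)
    (k m : ℕ) (hmk : m ≤ k)
    (hs : ∀ i < m, 2 * (s i + (k - i)) + i + ∑ j ∈ range i, s j + (m - 1) ≤ Fintype.card V) :
    Stage R s k m ∨ Stage B s k m := by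
  have key : ∀ r : ℕ, ∃ i i', i ≤ m ∧ i' ≤ m ∧ Stage R s k i ∧ Stage B s k i' ∧
      (i = m ∨ i' = m ∨ r ≤ i + i') := by
    intro r
    induction r with
    | zero => exact ⟨0, 0, by omega, by omega, stage_zero R s k, stage_zero B s k, by omega⟩
    | succ r ih =>
      obtain ⟨i, i', hi, hi', h1, h2, h3⟩ := ih
      by_cases hik : i = m
      · exact ⟨i, i', hi, hi', h1, h2, Or.inl hik⟩
      by_cases hik' : i' = m
      · exact ⟨i, i', hi, hi', h1, h2, Or.inr (Or.inl hik')⟩
      rcases step_to R B hRB s k m hmk hs i i' (by omega) (by omega) h1 h2 with h | h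
      · exact ⟨i + 1, i', by omega, hi', h, h2, by omega⟩
      · exact ⟨i, i' + 1, hi, by omega, h1, h, by omega⟩
  obtain ⟨i, i', hi, hi', h1, h2, h3⟩ := key (2 * m)
  by_cases hik : i = m
  · left; subst hik; exact h1
  · right
    have : i' = m := by omega
    subst this; exact h2

end greedy

end Pool.Agent.MinRamsey
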